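import Pool.Agent.helper53.ORT.Spec

/-!
# Row ort:FIN (MP_561ff4_al): the result
-/

set_option autoImplicit false

namespace Pool.Agent.ORT

open Module Pool.Agent.GS

theorem FIN (mn : MN_stmt) (fg : FG_stmt) (pro : PRO_stmt) (fro : FRO_stmt) (be : GS.BE_stmt) :
    FIN_stmt := by
  intro F V _ _ _ _ _ B hchar hsym hdim
  have key : ∀ x : MulAut (POm B), IsPGammaO B x → x ≠ 1 → ∀ r : ℕ, r.Prime → r ≠ 2 →
      r ∣ Nat.card (POm B) → r - 1 ∈ CSet r x := by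
    intro x hx hx1 r hr hr2 hdvd
    obtain ⟨y, ψ, ν, hsim, hconj⟩ := hx
    obtain ⟨hns, hgen⟩ := fg B hchar hsym (by omega) x y ψ ν hsim hconj
    obtain ⟨z, hz, hgn, hNS⟩ := mn B hchar hsym hdim y ψ ν hsim (hns hx1) r hr hr2
      (pro B r hr hdvd)
    have hr3 : 3 ≤ r := by
      have := hr.two_le
      omega
    exact (be r x (r - 1)).2 ⟨by omega, hgen r (r - 1) z hz hgn hNS⟩
  refine ⟨?_, ?_⟩
  · intro x hx hx1 r hr hr2 hdvd
    have hmem := key x hx hx1 r hr hr2 hdvd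
    have hne : (CSet r x).Nonempty := ⟨_, hmem⟩
    exact ⟨sInf (CSet r x), ⟨Nat.sInf_mem hne, fun k hk => Nat.sInf_le hk⟩, Nat.sInf_le hmem⟩
  · obtain ⟨x, hx, ho, hlb⟩ := fro B hchar hsym (by omega)
    refine ⟨x, hx, ho, ?_⟩
    intro r hr hr2 hdvd hndvd hmin
    have hx1 : x ≠ 1 := by
      intro h
      rw [h, orderOf_one] at ho
      exact absurd ho (by norm_num)
    refine ⟨key x hx hx1 r hr hr2 hdvd, ?_⟩
    intro k hk
    obtain ⟨hk1, hk2⟩ := (be r x k).1 hk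
    obtain ⟨i, hi1, hi2, hi3⟩ := hlb k r hr hndvd hk2
    by_contra hlt
    exact hmin i hi1 (by omega) hi3

end Pool.Agent.ORT
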